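import Mathlib
import Pool.Agent.Y399.MG.H

/-!
# Discriminants and ramified primes
-/

set_option autoImplicit false

namespace Pool.Agent.R976.MG

open NumberField Module Finset
open Pool.Agent.TH53.HR

variable {K : Type} [Field K] [NumberField K]

lemma sum_ef_int (p : ℕ) [Fact p.Prime] :
    ∑ P ∈ IsDedekindDomain.primesOverFinset (Ideal.span {(p : ℤ)}) (𝓞 K),
      P.ramificationIdx ℤ * P.inertiaDeg ℤ = finrank ℚ K := by
  classical
  have hp : p.Prime := Fact.out
  have hmax : (Ideal.span {(p : ℤ)}).IsMaximal := span_maximal hp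
  have hprime : (Ideal.span {(p : ℤ)}).IsPrime := hmax.isPrime
  have : Fintype ((Ideal.span {(p : ℤ)}).primesOver (𝓞 K)) :=
    Fintype.ofFinset (IsDedekindDomain.primesOverFinset (Ideal.span {(p : ℤ)}) (𝓞 K)) (by
      intro P
      exact IsDedekindDomain.mem_primesOverFinset_iff (span_ne_bot hp) (𝓞 K))
  have h1 := Ideal.sum_ramification_inertia_eq_finrank (Ideal.span {(p : ℤ)}) (𝓞 K)
  have h2 : finrank ℤ (𝓞 K) = finrank ℚ K := RingOfIntegers.rank K
  rw [← h2, ← h1]
  symm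
  apply Finset.sum_bij (fun (q : (Ideal.span {(p : ℤ)}).primesOver (𝓞 K)) _ => q.1)
  · intro q _
    rw [IsDedekindDomain.mem_primesOverFinset_iff (span_ne_bot hp)]
    exact q.2
  · intro q _ r _ h
    exact Subtype.ext h
  · intro P hP
    rw [IsDedekindDomain.mem_primesOverFinset_iff (span_ne_bot hp)] at hP
    exact ⟨⟨P, hP⟩, Finset.mem_univ _, rfl⟩
  · intro q _
    rfl

lemma pow_dvd_diff (p : ℕ) [Fact p.Prime] (P : Ideal (𝓞 K))
    (hP : P ∈ IsDedekindDomain.primesOverFinset (Ideal.span {(p : ℤ)}) (𝓞 K)) :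
    P ^ (P.ramificationIdx ℤ - 1) ∣ differentIdeal ℤ (𝓞 K) := by
  have hp : p.Prime := Fact.out
  rw [IsDedekindDomain.mem_primesOverFinset_iff (span_ne_bot hp)] at hP
  have : (Ideal.span {(p : ℤ)}).IsMaximal := span_maximal hp
  have := hP.1
  have := hP.2
  apply pow_sub_one_dvd_differentIdeal (A := ℤ) (p := Ideal.span {(p : ℤ)}) P _ (span_ne_bot hp)
  rw [← Ideal.ramificationIdx'_eq_ramificationIdx (Ideal.span {(p : ℤ)}) P (span_ne_bot hp)]
  exact Ideal.dvd_iff_le.mpr Ideal.le_pow_ramificationIdx'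

/-- the prime ideals above the primes of a finite set -/
lemma prime_unique (p q : ℕ) (hp : p.Prime) (hq : q.Prime) (P : Ideal (𝓞 K))
    (hP : P.LiesOver (Ideal.span {(p : ℤ)})) (hQ : P.LiesOver (Ideal.span {(q : ℤ)})) : p = q := by
  have h1 := hP.over
  have h2 := hQ.over
  rw [← h1] at h2
  rw [Ideal.span_singleton_eq_span_singleton] at h2
  have h3 : (q : ℤ).natAbs = (p : ℤ).natAbs := Int.natAbs_eq_iff_associated.mpr h2
  simpa using h3.symm

/-- the discriminant is divisible by high powers of the ramified primes -/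
lemma discr_ge (PP : Finset ℕ) (hPP : ∀ p ∈ PP, p.Prime) :
    ∏ p ∈ PP, p ^ (finrank ℚ K - resDegSum K p) ≤ (discr K).natAbs := by
  classical
  -- all prime ideals
  set J : ℕ → Finset (Ideal (𝓞 K)) := fun p =>
    IsDedekindDomain.primesOverFinset (Ideal.span {(p : ℤ)}) (𝓞 K) with hJ
  have hmem : ∀ p ∈ PP, ∀ P ∈ J p, P.IsPrime ∧ P.LiesOver (Ideal.span {(p : ℤ)}) := by
    intro p hp P hP
    rw [hJ] at hP
    have := span_maximal (hPP p hp)
    exact (IsDedekindDomain.mem_primesOverFinset_iff (span_ne_bot (hPP p hp)) (𝓞 K)).mp hP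
  have hmax : ∀ p ∈ PP, ∀ P ∈ J p, P.IsMaximal := by
    intro p hp P hP
    obtain ⟨h1, h2⟩ := hmem p hp P hP
    exact h1.isMaximal (Ideal.ne_bot_of_liesOver_of_ne_bot (span_ne_bot (hPP p hp)) P)
  have hdisj : ∀ p ∈ PP, ∀ q ∈ PP, p ≠ q → ∀ P ∈ J p, ∀ Q ∈ J q, P ≠ Q := by
    intro p hp q hq hne P hP Q hQ h
    subst h
    exact hne (prime_unique p q (hPP p hp) (hPP q hq) P (hmem p hp P hP).2 (hmem q hq P hQ).2)
  have hcop : ∀ p ∈ PP, ∀ q ∈ PP, ∀ P ∈ J p, ∀ Q ∈ J q, P ≠ Q → ∀ a b : ℕ,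
      IsCoprime (P ^ a) (Q ^ b) := by
    intro p hp q hq P hP Q hQ hne a b
    apply IsCoprime.pow
    rw [Ideal.isCoprime_iff_sup_eq]
    exact (hmax p hp P hP).coprime_of_ne (hmax q hq Q hQ) hne
  have h1 : (∏ p ∈ PP, ∏ P ∈ J p, P ^ (P.ramificationIdx ℤ - 1)) ∣ differentIdeal ℤ (𝓞 K) := by
    apply Finset.prod_dvd_of_coprime
    · intro p hp q hq hne
      apply IsCoprime.prod_left
      intro P hP
      apply IsCoprime.prod_right
      intro Q hQ
      exact hcop p hp q hq P hP Q hQ (hdisj p hp q hq hne P hP Q hQ) _ _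
    · intro p hp
      apply Finset.prod_dvd_of_coprime
      · intro P hP Q hQ hne
        exact hcop p hp p hp P hP Q hQ hne _ _
      · intro P hP
        haveI : Fact p.Prime := ⟨hPP p hp⟩
        exact pow_dvd_diff p P hP
  have h2 := map_dvd Ideal.absNorm h1
  rw [absNorm_differentIdeal K, map_prod] at h2
  have h3 : ∀ p ∈ PP, Ideal.absNorm (∏ P ∈ J p, P ^ (P.ramificationIdx ℤ - 1)) =
      p ^ (finrank ℚ K - resDegSum K p) := by
    intro p hp
    haveI : Fact p.Prime := ⟨hPP p hp⟩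
    rw [map_prod]
    have h4 : ∀ P ∈ J p, Ideal.absNorm (P ^ (P.ramificationIdx ℤ - 1)) =
        p ^ (P.ramificationIdx ℤ * P.inertiaDeg ℤ - P.inertiaDeg ℤ) := by
      intro P hP
      obtain ⟨h5, h6⟩ := hmem p hp P hP
      rw [map_pow, ← Ideal.pow_inertiaDeg p P, ← pow_mul]
      congr 1
      rw [Nat.mul_sub, mul_one, mul_comm]
    rw [Finset.prod_congr rfl h4, Finset.prod_pow_eq_pow_sum]
    congr 1
    rw [Finset.sum_tsub_distrib]
    · rw [sum_ef_int]
      rfl
    · intro P hP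
      obtain ⟨h5, h6⟩ := hmem p hp P hP
      have : 0 < P.ramificationIdx ℤ := P.ramificationIdx_pos ℤ
      exact Nat.le_mul_of_pos_left _ this
  rw [Finset.prod_congr rfl h3] at h2
  exact Nat.le_of_dvd (Int.natAbs_pos.mpr (discr_ne_zero K)) h2

end Pool.Agent.R976.MG
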