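import Mathlib
import Pool.Agent.R976.MG.Disc

/-!
# The lower bound over fields with many ramified primes
-/

set_option autoImplicit false

namespace Pool.Agent.R976.MG

open NumberField Module Finset IntermediateField
open Pool.Agent.TH53.HR Pool.Agent.Y399.RD Pool.Agent.Y399.MG Pool.Agent.H388SL

theorem ram_lower : ∃ c : ℝ, 0 < c ∧ ∀ (k L : Type) [Field k] [NumberField k] [Field L]
    [NumberField L] [Algebra k L] (S : Finset (k →+* ℂ)) (x : L) (s n : ℕ) (δ R : ℝ)
    (PP : Finset ℕ), x ≠ 0 → IsIntegral ℤ x →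
    (∀ m : ℕ, 0 < m → x ^ m ≠ 1) → 1 ≤ R →
    (∀ τ : L →+* ℂ, τ.comp (algebraMap k L) ∉ S → ‖τ x‖ ≤ 1) → (∀ τ : L →+* ℂ, ‖τ x‖ ≤ R) →
    S.card ≤ s → finrank k L ≤ n →
    (∀ p ∈ PP, p.Prime ∧ 2 * (s * n) * resDegSum k p ≤ finrank ℚ k) → 0 < δ →
    (δ * finrank ℚ k) ^ 2 ≤ ∏ p ∈ PP, (p : ℝ) →
    c * (Real.log (Real.log (16 + n / δ)) / Real.log (16 + n / δ)) ^ 3 ≤
      (s * n : ℕ) * Real.log R := by
  obtain ⟨c, hc, hfield⟩ := field_bound
  refine ⟨c, hc, ?_⟩
  intro k L _ _ _ _ _ S x s n δ R PP hx0 hxi hroot hR hout hin hs hn hPP hδ hdisc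
  classical
  obtain ⟨M, β, hML, hβ0, hβroot, hgen, hlam⟩ :=
    transfer S x s n R hx0 hxi hroot hR hout hin hs hn
  have hkL : 0 < finrank k L := finrank_pos
  have hn0 : 0 < n := hkL.trans_le hn
  have hMLpos : 0 < finrank M L := finrank_pos
  have hsn : 0 < s * n := hMLpos.trans_le hML
  have hm : 0 < finrank ℚ k := finrank_pos
  have hd : 0 < finrank ℚ M := finrank_pos
  have htow := finrank_sub (k := k) M
  -- the residue degrees of `M`
  have hres : ∀ p ∈ PP, 2 * resDegSum M p ≤ finrank ℚ M := by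
    intro p hp
    haveI : Fact p.Prime := ⟨(hPP p hp).1⟩
    have h1 := (resDegSum_down (k := M) (L := L) p).trans (resDegSum_up (k := k) (L := L) p)
    have h2 := (hPP p hp).2
    have h3 : (s * n) * (2 * resDegSum M p) ≤ (s * n) * finrank ℚ M := by
      calc (s * n) * (2 * resDegSum M p) ≤ (s * n) * (2 * (finrank k L * resDegSum k p)) :=
            Nat.mul_le_mul_left _ (Nat.mul_le_mul_left _ h1)
        _ = finrank k L * (2 * (s * n) * resDegSum k p) := by ring
        _ ≤ finrank k L * finrank ℚ k := Nat.mul_le_mul_left _ h2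
        _ = finrank ℚ M * finrank M L := by rw [htow, mul_comm]
        _ ≤ finrank ℚ M * (s * n) := Nat.mul_le_mul_left _ hML
        _ = (s * n) * finrank ℚ M := mul_comm _ _
    exact Nat.le_of_mul_le_mul_left h3 hsn
  have hβ0' : (β : M) ≠ 0 := fun h => hβ0 (RingOfIntegers.coe_eq_zero_iff.mp h)
  have hβroot' : ∀ m : ℕ, 0 < m → (β : M) ^ m ≠ 1 := by
    intro m hm h
    apply hβroot m hm
    apply RingOfIntegers.ext
    simpa using h
  have hcinj : ∀ i : ℕ, 0 < i → CInj ((β : M) ^ i) := fun i hi => cinj_of_adjoin (hgen i hi)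
  have hgen1 : ℚ⟮(β : M)⟯ = ⊤ := by
    have := hgen 1 one_pos
    rwa [pow_one] at this
  -- the discriminant
  have hmR : (0 : ℝ) < finrank ℚ k := by exact_mod_cast hm
  have hdR : (0 : ℝ) < finrank ℚ M := by exact_mod_cast hd
  have hnR : (0 : ℝ) < n := by exact_mod_cast hn0
  have hT0 : 0 < (n : ℝ) / δ := by positivity
  have hLD : finrank ℚ M * Real.log (finrank ℚ M / (n / δ)) ≤ LD (β : M) := by
    refine le_trans ?_ (log_discr_le β hgen1)
    have h1 := discr_ge (K := M) PP (fun p hp => (hPP p hp).1)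
    have h2 : (∏ p ∈ PP, (p : ℝ) ^ (finrank ℚ M - resDegSum M p)) ≤ |(discr M : ℝ)| := by
      have e1 : |(discr M : ℝ)| = ((discr M).natAbs : ℝ) := by
        rw [Nat.cast_natAbs, Int.cast_abs]
      rw [e1]
      exact_mod_cast h1
    have hp1 : ∀ p ∈ PP, (1 : ℝ) < p := fun p hp => by exact_mod_cast (hPP p hp).1.one_lt
    have h3 : 0 < ∏ p ∈ PP, (p : ℝ) ^ (finrank ℚ M - resDegSum M p) :=
      Finset.prod_pos fun p hp => pow_pos (by linarith [hp1 p hp]) _
    have h4 := Real.log_le_log h3 h2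
    refine le_trans ?_ h4
    rw [Real.log_prod (fun p hp => (pow_pos (by linarith [hp1 p hp]) _).ne')]
    have h5 : ∀ p ∈ PP, (finrank ℚ M : ℝ) / 2 * Real.log p ≤
        Real.log ((p : ℝ) ^ (finrank ℚ M - resDegSum M p)) := by
      intro p hp
      rw [Real.log_pow]
      apply mul_le_mul_of_nonneg_right _ (Real.log_pos (hp1 p hp)).le
      have h6 := hres p hp
      rw [Nat.cast_sub (by omega)]
      have h7 : (2 : ℝ) * resDegSum M p ≤ finrank ℚ M := by exact_mod_cast h6
      linarith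
    refine le_trans ?_ (Finset.sum_le_sum h5)
    have hlp : Real.log (∏ p ∈ PP, (p : ℝ)) = ∑ p ∈ PP, Real.log (p : ℝ) :=
      Real.log_prod (s := PP) (f := fun p : ℕ => (p : ℝ)) (fun p hp => by
        have := hp1 p hp
        positivity)
    rw [← Finset.mul_sum, ← hlp]
    have h8 : Real.log ((δ * finrank ℚ k) ^ 2) ≤ Real.log (∏ p ∈ PP, (p : ℝ)) :=
      Real.log_le_log (by positivity) hdisc
    rw [Real.log_pow] at h8
    have h9 : Real.log (finrank ℚ M / (n / δ)) ≤ Real.log (δ * finrank ℚ k) := by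
      apply Real.log_le_log (by positivity)
      rw [div_div_eq_mul_div, div_le_iff₀ hnR]
      have h10 : (finrank ℚ M : ℝ) ≤ finrank ℚ k * n := by
        have h11 : finrank ℚ M ≤ finrank ℚ k * n := by
          calc finrank ℚ M ≤ finrank ℚ M * finrank M L := Nat.le_mul_of_pos_right _ hMLpos
            _ = finrank ℚ k * finrank k L := htow
            _ ≤ _ := Nat.mul_le_mul_left _ hn
        exact_mod_cast h11
      calc (finrank ℚ M : ℝ) * δ ≤ (finrank ℚ k * n) * δ := by gcongr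
        _ = δ * finrank ℚ k * n := by ring
    calc (finrank ℚ M : ℝ) * Real.log (finrank ℚ M / (n / δ))
        ≤ finrank ℚ M * Real.log (δ * finrank ℚ k) := by gcongr
      _ = finrank ℚ M / 2 * (((2 : ℕ) : ℝ) * Real.log (δ * finrank ℚ k)) := by
          push_cast
          ring
      _ ≤ _ := by gcongr
  exact (hfield M (β : M) β.isIntegral_coe hβ0' hβroot' hcinj _ hT0 hLD).trans hlam

end Pool.Agent.R976.MG
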