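import Mathlib
import Pool.Agent.R976.MG.Near

/-!
# The transfer to arithmetic groups over fields of bounded degree over abelian fields
-/

set_option autoImplicit false

namespace Pool.Agent.R976.MG

open NumberField Module IntermediateField Polynomial
open Pool.Agent.Y740.RL
open scoped Pointwise

/-- the logarithm of the lower bound -/
noncomputable def lb (C : ℝ) (n D N : ℕ) : ℝ :=
  Real.exp (-(C * Real.sqrt (1 + Real.log (n * D : ℕ)))) / (C * N)

lemma exp_mono {C : ℝ} (hC : 0 < C) {x y : ℕ} (h : x ≤ y) :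
    Real.exp (-(C * Real.sqrt (1 + Real.log y))) ≤ Real.exp (-(C * Real.sqrt (1 + Real.log x))) := by
  apply Real.exp_le_exp.2
  apply neg_le_neg
  apply mul_le_mul_of_nonneg_left _ hC.le
  apply Real.sqrt_le_sqrt
  rcases Nat.eq_zero_or_pos x with h0 | h0
  · subst h0
    simp only [Nat.cast_zero, Real.log_zero, add_zero]
    have := Real.log_natCast_nonneg y
    linarith
  · have h1 : (x : ℝ) ≤ y := by exact_mod_cast h
    have h2 : (0 : ℝ) < x := by exact_mod_cast h0
    have := Real.log_le_log h2 h1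
    linarith

/-- the lower bound for the Mahler measure -/
theorem near_mahler (K : Type) [Field K] [NumberField K] {p : ℕ} (hp : p.Prime) (𝔭 : Ideal (𝓞 K))
    (h𝔭 : 𝔭.IsMaximal) (hp𝔭 : (p : 𝓞 K) ∈ 𝔭) (a b : ℕ) (ha : 1 ≤ a) :
    ∃ C : ℝ, 0 < C ∧ ∀ (E k : Type) [Field E] [NumberField E] [Field k] [NumberField k]
      [Algebra K E] [Algebra E k] [IsGalois K E], FewConj 𝔭 E b a → ∀ (n N : ℕ)
      (L : Type) [Field L] [NumberField L] [Algebra k L] (M : IntermediateField ℚ L) (β : 𝓞 M),
      finrank k L ≤ n → finrank M L ≤ N → β ≠ 0 → (∀ m : ℕ, 0 < m → β ^ m ≠ 1) →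
      (∀ i : ℕ, 0 < i → ℚ⟮(β : M) ^ i⟯ = ⊤) →
      lb C n (finrank E k) N ≤
        Real.log ((minpoly ℤ (β : M)).map (Int.castRingHom ℂ)).mahlerMeasure := by
  obtain ⟨C, hC, h⟩ := power_bound K hp 𝔭 h𝔭 hp𝔭 a b ha
  refine ⟨C, hC, ?_⟩
  intro E k _ _ _ _ _ _ _ hfew n N L _ _ _ M β hn hN hβ hroot hgen
  let i1 : Algebra E L := ((algebraMap k L).comp (algebraMap E k)).toAlgebra
  let i2 : Algebra K L := ((algebraMap E L).comp (algebraMap K E)).toAlgebra
  have i3 : IsScalarTower E k L := IsScalarTower.of_algebraMap_eq fun x => rfl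
  have i4 : IsScalarTower K E L := IsScalarTower.of_algebraMap_eq fun x => rfl
  set β' : L := ((β : M) : L) with hβ'
  have hβ0 : β' ≠ 0 := by
    intro h0
    apply hβ
    have h1 : (β : M) = 0 := by
      have : ((β : M) : L) = ((0 : M) : L) := by rw [← hβ', h0]; rfl
      exact Subtype.ext this
    exact RingOfIntegers.coe_eq_zero_iff.mp h1
  have hroot' : ∀ m : ℕ, 0 < m → β' ^ m ≠ 1 := by
    intro m hm h0
    apply hroot m hm
    apply RingOfIntegers.ext
    have h1 : (((β : M) ^ m : M) : L) = ((1 : M) : L) := by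
      rw [hβ'] at h0
      push_cast
      exact h0
    have h2 : (β : M) ^ m = 1 := Subtype.ext h1
    simpa using h2
  have h1 := h E L hfew β' hβ0 hroot'
  set f := minpoly ℤ (β : M) with hf
  have hβi : IsIntegral ℤ (β : M) := β.isIntegral_coe
  have hirr : Irreducible f := minpoly.irreducible hβi
  have hd : 0 < f.natDegree := minpoly.natDegree_pos hβi
  have hroot2 : aeval β' f = 0 := by
    have h2 : aeval ((algebraMap M L) (β : M)) f = algebraMap M L (aeval (β : M) f) :=
      aeval_algebraMap_apply L (β : M) f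
    rw [hf, minpoly.aeval, map_zero] at h2
    exact h2
  have h2 := Pool.Agent.W469.CV.MH.t L β' f hirr hd hroot2
  have h3 : Pool.Agent.H813R3.Voj.mahler f =
    ((minpoly ℤ (β : M)).map (Int.castRingHom ℂ)).mahlerMeasure := rfl
  rw [h3] at h2
  set Λ := Real.log ((minpoly ℤ (β : M)).map (Int.castRingHom ℂ)).mahlerMeasure with hΛ
  -- degrees
  have hdeg : f.natDegree = finrank ℚ M := by
    have h4 : ℚ⟮(β : M)⟯ = ⊤ := by
      have := hgen 1 one_pos
      rwa [pow_one] at this
    have h5 : finrank ℚ ℚ⟮(β : M)⟯ = (minpoly ℚ (β : M)).natDegree :=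
      adjoin.finrank hβi.tower_top
    rw [h4, finrank_top', minpoly.isIntegrallyClosed_eq_field_fractions' ℚ hβi,
      natDegree_map_eq_of_injective (algebraMap ℤ ℚ).injective_int] at h5
    exact h5.symm
  have hLpos : 0 < finrank ℚ L := finrank_pos
  have hLM : finrank ℚ M * finrank M L = finrank ℚ L := finrank_mul_finrank ℚ M L
  have hkL : finrank E k * finrank k L = finrank E L := finrank_mul_finrank E k L
  have hEL : finrank K E * finrank E L = finrank K L := finrank_mul_finrank K E L
  have hKL : finrank ℚ K * finrank K L = finrank ℚ L := finrank_mul_finrank ℚ K L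
  have hKpos : 0 < finrank ℚ K := finrank_pos
  have hKLpos : 0 < finrank K L := finrank_pos
  have hMpos : 0 < finrank ℚ M := finrank_pos
  have hle : finrank K L ≤ f.natDegree * N := by
    calc finrank K L ≤ finrank ℚ K * finrank K L := Nat.le_mul_of_pos_left _ hKpos
      _ = finrank ℚ M * finrank M L := by rw [hKL, hLM]
      _ ≤ f.natDegree * N := by rw [hdeg]; exact Nat.mul_le_mul_left _ hN
  have hNpos : 0 < N := by
    rcases Nat.eq_zero_or_pos N with h0 | h0
    · rw [h0, mul_zero] at hle; omega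
    · exact h0
  have hELn : finrank E L ≤ n * finrank E k := by
    rw [← hkL, mul_comm]
    exact Nat.mul_le_mul_right _ hn
  have h4 : Real.exp (-(C * Real.sqrt (1 + Real.log ((n * finrank E k : ℕ) : ℝ)))) ≤
      Real.exp (-(C * Real.sqrt (1 + Real.log (finrank E L)))) := exp_mono hC hELn
  set X := Real.exp (-(C * Real.sqrt (1 + Real.log (finrank E L)))) with hX
  have hX0 : 0 < X := Real.exp_pos _
  have hdR : (0 : ℝ) < f.natDegree := by exact_mod_cast hd
  have hLR : (0 : ℝ) < finrank ℚ L := by exact_mod_cast hLpos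
  have hKR : (0 : ℝ) < finrank K L := by exact_mod_cast hKLpos
  have hNR : (0 : ℝ) < N := by exact_mod_cast hNpos
  have h5 : X / (C * finrank K L) ≤ Λ / f.natDegree := by
    have e1 : C * (finrank K E : ℝ) * finrank E L = C * finrank K L := by
      rw [← hEL]; push_cast; ring
    rw [e1] at h1
    refine h1.trans ?_
    rw [div_le_iff₀ hLR]
    linarith
  have h6 : X / (C * N) ≤ Λ := by
    rw [div_le_div_iff₀ (by positivity) hdR] at h5
    rw [div_le_iff₀ (by positivity)]
    have h7 : (finrank K L : ℝ) ≤ f.natDegree * N := by exact_mod_cast hle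
    have hΛ0 : 0 ≤ Λ := by
      by_contra hcon
      push Not at hcon
      have : Λ * (C * finrank K L) < 0 := mul_neg_of_neg_of_pos hcon (by positivity)
      have : 0 < X * f.natDegree := by positivity
      linarith
    have h8 : X * f.natDegree ≤ (Λ * (C * N)) * f.natDegree := by
      calc X * f.natDegree ≤ Λ * (C * finrank K L) := h5
        _ ≤ Λ * (C * (f.natDegree * N)) := by
            apply mul_le_mul_of_nonneg_left _ hΛ0
            exact mul_le_mul_of_nonneg_left h7 hC.le
        _ = (Λ * (C * N)) * f.natDegree := by ring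
    exact le_of_mul_le_mul_right h8 hdR
  unfold lb
  refine le_trans ?_ h6
  exact div_le_div_of_nonneg_right h4 (by positivity)

/-- conjugates in virtually abelian groups -/
lemma conj_ncard {G : Type*} [Group G] (A : Subgroup G) (hA : ∀ x ∈ A, ∀ y ∈ A, x * y = y * x)
    {j : ℕ} (h0 : A.index ≠ 0) (hj : A.index ≤ j) (σ : G) :
    (Set.range fun g : G => g * σ ^ j.factorial * g⁻¹).ncard ≤ j := by
  classical
  haveI hfi : A.FiniteIndex := ⟨h0⟩
  haveI hfin : Finite (G ⧸ A) := Subgroup.finite_quotient_of_finiteIndex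
  have hmem : σ ^ j.factorial ∈ A := by
    obtain ⟨m, hm0, hmi, hm⟩ := Subgroup.exists_pow_mem_of_index_ne_zero h0 σ
    obtain ⟨c, hc⟩ := Nat.dvd_factorial hm0 (hmi.trans hj)
    rw [hc, pow_mul]
    exact A.pow_mem hm c
  have hlift : ∀ g h : G, (QuotientGroup.leftRel A) g h →
      g * σ ^ j.factorial * g⁻¹ = h * σ ^ j.factorial * h⁻¹ := by
    intro g h hgh
    rw [QuotientGroup.leftRel_apply] at hgh
    have h1 := hA _ hgh _ hmem
    have h2 : h = g * (g⁻¹ * h) := by group
    calc g * σ ^ j.factorial * g⁻¹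
        = g * (σ ^ j.factorial * (g⁻¹ * h)) * (g⁻¹ * h)⁻¹ * g⁻¹ := by group
      _ = g * ((g⁻¹ * h) * σ ^ j.factorial) * (g⁻¹ * h)⁻¹ * g⁻¹ := by rw [h1]
      _ = h * σ ^ j.factorial * h⁻¹ := by group
  let F : G ⧸ A → G := Quotient.lift (fun g : G => g * σ ^ j.factorial * g⁻¹) hlift
  have hsub : (Set.range fun g : G => g * σ ^ j.factorial * g⁻¹) ⊆ Set.range F := by
    rintro _ ⟨g, rfl⟩
    exact ⟨QuotientGroup.mk g, rfl⟩
  calc (Set.range fun g : G => g * σ ^ j.factorial * g⁻¹).ncard ≤ (Set.range F).ncard :=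
        Set.ncard_le_ncard hsub (Set.finite_range F)
    _ ≤ Nat.card (G ⧸ A) := by
        rw [← Set.image_univ, ← Set.ncard_univ]
        exact Set.ncard_image_le Set.finite_univ
    _ = A.index := rfl
    _ ≤ j := hj

end Pool.Agent.R976.MG
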