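import Mathlib
import Pool.Agent.R976.MG.Near

/-!
# Lower bounds for the Mahler measure over abelian fields with bounded ramification
-/

set_option autoImplicit false

namespace Pool.Agent.R976.MG

open NumberField Module Filter Topology IsDedekindDomain
open Pool.Agent.Y740.RL Pool.Agent.H420R3
open scoped Pointwise

/-- the relative lower bound for the Weil height, bounded ramification -/
theorem power_bound_ram (K : Type) [Field K] [NumberField K] {p : ℕ} (hp : p.Prime) (𝔭 : Ideal (𝓞 K))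
    (h𝔭 : 𝔭.IsMaximal) (hp𝔭 : (p : 𝓞 K) ∈ 𝔭) (a b : ℕ) (ha : 1 ≤ a) :
    ∃ C : ℝ, 0 < C ∧ ∀ (E L : Type) [Field E] [NumberField E] [Field L] [NumberField L]
      [Algebra K E] [Algebra K L] [Algebra E L] [IsScalarTower K E L] [IsGalois K E],
      FewConj 𝔭 E b a → ∀ e : ℕ, RamLe 𝔭 E e → ∀ β : L, β ≠ 0 → (∀ m : ℕ, 0 < m → β ^ m ≠ 1) →
      Real.exp (-(C * Real.sqrt (1 + Real.log (finrank E L)))) /
        (C * e * finrank E L) ≤ Real.log (Height.mulHeight₁ β) / finrank ℚ L := by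
  have hbot : 𝔭 ≠ ⊥ := by
    intro h
    rw [h, Ideal.mem_bot] at hp𝔭
    exact hp.ne_zero (by exact_mod_cast hp𝔭)
  let P : HeightOneSpectrum (𝓞 K) := ⟨𝔭, h𝔭.isPrime, hbot⟩
  let v : FinitePlace K := FinitePlace.mk P
  have hmi : mi v = 𝔭 := by
    have h1 : v.maximalIdeal = P := FinitePlace.maximalIdeal_mk P
    change v.maximalIdeal.asIdeal = 𝔭
    rw [h1]
  have hv : v (p : K) < 1 := by
    have h1 : v (p : K) = ‖FinitePlace.embedding P ((p : 𝓞 K) : K)‖ := by
      change FinitePlace.mk P (p : K) = _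
      rw [FinitePlace.mk_apply]
      simp
    rw [h1, FinitePlace.norm_lt_one_iff_mem]
    exact hp𝔭
  obtain ⟨C, hC, h⟩ := topQ hp (le_refl 1) (Fp K (p ^ 1)) (Fp_hom K (p ^ 1)) K 1
    (by rw [Matrix.det_one]; exact one_ne_zero) (Fp K (p ^ 1)) (Fp_hom K (p ^ 1))
    (conj_one K (p ^ 1)) v hv (insep K (p ^ 1) (by rw [pow_one]; exact hp.one_lt.le) v) b a ha
  refine ⟨C, hC, ?_⟩
  intro E L _ _ _ _ _ _ _ _ _ hfew e he β hβ hroot
  have hgen : Algebra.adjoin E (PerSet (Fp K (p ^ 1)) E) = ⊤ := by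
    rw [eq_top_iff]
    intro x _
    exact Subalgebra.algebraMap_mem _ x
  have hx : (![β, 1] : Fin 2 → L) ≠ 0 := by
    intro h0
    have := congrFun h0 1
    simp at this
  obtain ⟨ht, hlim, -, hlow⟩ := h E E L (by
    convert hfew using 1
    rw [hmi]
    ext x
    rw [Ideal.mem_comap]
    exact Iff.of_eq (congrArg (· ∈ 𝔭) (RingOfIntegers.ext rfl))) hgen ![β, 1] hx (by
    rintro ⟨m, n, hmn, c, hc, hcc⟩
    rw [act_iter, act_iter] at hcc
    have h1 := congrFun hcc 1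
    have h0 := congrFun hcc 0
    simp only [Matrix.cons_val_one, Matrix.cons_val_fin_one, Matrix.cons_val_zero,
      Pi.smul_apply, smul_eq_mul, mul_one] at h1 h0
    rw [← h1, one_mul] at h0
    have hq2 : 2 ≤ p ^ 1 := by rw [pow_one]; exact hp.two_le
    rcases lt_or_gt_of_ne hmn with h | h
    · have h3 : (p ^ 1) ^ m < (p ^ 1) ^ n := Nat.pow_lt_pow_right (by omega) h
      apply hroot ((p ^ 1) ^ n - (p ^ 1) ^ m) (by omega)
      have h4 : β ^ ((p ^ 1) ^ n) = β ^ ((p ^ 1) ^ n - (p ^ 1) ^ m) * β ^ ((p ^ 1) ^ m) := by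
        rw [← pow_add]; congr 1; omega
      rw [h0] at h4
      have h5 : β ^ ((p ^ 1) ^ m) ≠ 0 := pow_ne_zero _ hβ
      exact mul_right_cancel₀ h5 (by rw [one_mul]; exact h4.symm)
    · have h3 : (p ^ 1) ^ n < (p ^ 1) ^ m := Nat.pow_lt_pow_right (by omega) h
      apply hroot ((p ^ 1) ^ m - (p ^ 1) ^ n) (by omega)
      have h4 : β ^ ((p ^ 1) ^ m) = β ^ ((p ^ 1) ^ m - (p ^ 1) ^ n) * β ^ ((p ^ 1) ^ n) := by
        rw [← pow_add]; congr 1; omega
      rw [← h0] at h4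
      have h5 : β ^ ((p ^ 1) ^ n) ≠ 0 := pow_ne_zero _ hβ
      exact mul_right_cancel₀ h5 (by rw [one_mul]; exact h4.symm))
  have hconst : ∀ n : ℕ, Height.logHeight ((act (Fp K (p ^ 1)))^[n] (![β, 1] : Fin 2 → L)) /
      ((finrank ℚ L : ℝ) * ((p ^ 1 : ℕ) : ℝ) ^ n) =
      Real.log (Height.mulHeight₁ β) / finrank ℚ L := by
    intro n
    rw [act_iter, ← Height.logHeight₁_eq_logHeight, Height.logHeight₁_pow,
      Height.logHeight₁_eq_log_mulHeight₁]
    have hp0 : (p : ℝ) ≠ 0 := by exact_mod_cast hp.ne_zero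
    have hL : (finrank ℚ L : ℝ) ≠ 0 := by
      exact_mod_cast (finrank_pos : 0 < finrank ℚ L).ne'
    push_cast
    field_simp
  have h2 : ht = Real.log (Height.mulHeight₁ β) / finrank ℚ L := by
    refine tendsto_nhds_unique hlim ?_
    rw [show (fun n : ℕ => Height.logHeight ((act (Fp K (p ^ 1)))^[n] (![β, 1] : Fin 2 → L)) /
      ((finrank ℚ L : ℝ) * ((p ^ 1 : ℕ) : ℝ) ^ n)) =
      fun _ => Real.log (Height.mulHeight₁ β) / finrank ℚ L from funext hconst]
    exact tendsto_const_nhds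
  rw [← h2]
  exact hlow e (by
    convert he using 1
    rw [hmi]
    ext x
    rw [Ideal.mem_comap]
    exact Iff.of_eq (congrArg (· ∈ 𝔭) (RingOfIntegers.ext rfl)))

end Pool.Agent.R976.MG
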