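import Mathlib
import Pool.Agent.R976.MG.Gap
import Pool.Agent.R976.MG.Near2

/-!
# The transfer to arithmetic groups over fields with large abelian subfields
-/

set_option autoImplicit false

namespace Pool.Agent.R976.MG

open NumberField Module IntermediateField Polynomial
open Pool.Agent.Y740.RL
open scoped Pointwise

/-- the logarithm of the lower bound -/
noncomputable def lb2 (C : ℝ) (n D N e m : ℕ) : ℝ :=
  m * Real.exp (-(C * Real.sqrt (1 + Real.log (n * D : ℕ)))) / (C * e * N)

/-- the lower bound for the Mahler measure -/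
theorem near_mahler_ram (K : Type) [Field K] [NumberField K] {p : ℕ} (hp : p.Prime)
    (𝔭 : Ideal (𝓞 K)) (h𝔭 : 𝔭.IsMaximal) (hp𝔭 : (p : 𝓞 K) ∈ 𝔭) (a b : ℕ) (ha : 1 ≤ a) :
    ∃ C : ℝ, 0 < C ∧ ∀ (E k : Type) [Field E] [NumberField E] [Field k] [NumberField k]
      [Algebra K E] [Algebra E k] [IsGalois K E], FewConj 𝔭 E b a → ∀ e : ℕ, 1 ≤ e → RamLe 𝔭 E e →
      ∀ (n N : ℕ) (L : Type) [Field L] [NumberField L] [Algebra k L] (M : IntermediateField ℚ L)
      (β : 𝓞 M), finrank k L ≤ n → finrank M L ≤ N → β ≠ 0 → (∀ m : ℕ, 0 < m → β ^ m ≠ 1) →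
      (∀ i : ℕ, 0 < i → ℚ⟮(β : M) ^ i⟯ = ⊤) →
      lb2 C n (finrank E k) N e (finrank ℚ E) ≤
        Real.log ((minpoly ℤ (β : M)).map (Int.castRingHom ℂ)).mahlerMeasure := by
  obtain ⟨C, hC, h⟩ := power_bound_ram K hp 𝔭 h𝔭 hp𝔭 a b ha
  refine ⟨C, hC, ?_⟩
  intro E k _ _ _ _ _ _ _ hfew e he1 he n N L _ _ _ M β hn hN hβ hroot hgen
  let i1 : Algebra E L := ((algebraMap k L).comp (algebraMap E k)).toAlgebra
  let i2 : Algebra K L := ((algebraMap E L).comp (algebraMap K E)).toAlgebra
  have i3 : IsScalarTower E k L := IsScalarTower.of_algebraMap_eq fun x => rfl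
  have i4 : IsScalarTower K E L := IsScalarTower.of_algebraMap_eq fun x => rfl
  set β' : L := ((β : M) : L) with hβ'
  have hβ0 : β' ≠ 0 := by
    intro h0
    apply hβ
    have h1 : (β : M) = 0 := by
      have : ((β : M) : L) = ((0 : M) : L) := by rw [← hβ', h0]; rfl
      exact Subtype.ext this
    exact RingOfIntegers.coe_eq_zero_iff.mp h1
  have hroot' : ∀ m : ℕ, 0 < m → β' ^ m ≠ 1 := by
    intro m hm h0
    apply hroot m hm
    apply RingOfIntegers.ext
    have h1 : (((β : M) ^ m : M) : L) = ((1 : M) : L) := by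
      rw [hβ'] at h0
      push_cast
      exact h0
    have h2 : (β : M) ^ m = 1 := Subtype.ext h1
    simpa using h2
  have h1 := h E L hfew e he β' hβ0 hroot'
  set f := minpoly ℤ (β : M) with hf
  have hβi : IsIntegral ℤ (β : M) := β.isIntegral_coe
  have hirr : Irreducible f := minpoly.irreducible hβi
  have hd : 0 < f.natDegree := minpoly.natDegree_pos hβi
  have hroot2 : aeval β' f = 0 := by
    have h2 : aeval ((algebraMap M L) (β : M)) f = algebraMap M L (aeval (β : M) f) :=
      aeval_algebraMap_apply L (β : M) f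
    rw [hf, minpoly.aeval, map_zero] at h2
    exact h2
  have h2 := Pool.Agent.W469.CV.MH.t L β' f hirr hd hroot2
  have h3 : Pool.Agent.H813R3.Voj.mahler f =
    ((minpoly ℤ (β : M)).map (Int.castRingHom ℂ)).mahlerMeasure := rfl
  rw [h3] at h2
  set Λ := Real.log ((minpoly ℤ (β : M)).map (Int.castRingHom ℂ)).mahlerMeasure with hΛ
  -- degrees
  have hdeg : f.natDegree = finrank ℚ M := by
    have h4 : ℚ⟮(β : M)⟯ = ⊤ := by
      have := hgen 1 one_pos
      rwa [pow_one] at this
    have h5 : finrank ℚ ℚ⟮(β : M)⟯ = (minpoly ℚ (β : M)).natDegree :=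
      adjoin.finrank hβi.tower_top
    rw [h4, finrank_top', minpoly.isIntegrallyClosed_eq_field_fractions' ℚ hβi,
      natDegree_map_eq_of_injective (algebraMap ℤ ℚ).injective_int] at h5
    exact h5.symm
  have hLpos : 0 < finrank ℚ L := finrank_pos
  have hLM : finrank ℚ M * finrank M L = finrank ℚ L := finrank_mul_finrank ℚ M L
  have hkL : finrank E k * finrank k L = finrank E L := finrank_mul_finrank E k L
  have hEL : finrank ℚ E * finrank E L = finrank ℚ L := finrank_mul_finrank ℚ E L
  have hELpos : 0 < finrank E L := finrank_pos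
  have hMpos : 0 < finrank ℚ M := finrank_pos
  have hle : finrank ℚ E * finrank E L ≤ f.natDegree * N := by
    calc finrank ℚ E * finrank E L = finrank ℚ M * finrank M L := by rw [hEL, hLM]
      _ ≤ f.natDegree * N := by rw [hdeg]; exact Nat.mul_le_mul_left _ hN
  have hNpos : 0 < N := by
    rcases Nat.eq_zero_or_pos N with h0 | h0
    · rw [h0, mul_zero, hEL] at hle; omega
    · exact h0
  have hELn : finrank E L ≤ n * finrank E k := by
    rw [← hkL, mul_comm]
    exact Nat.mul_le_mul_right _ hn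
  have h4 : Real.exp (-(C * Real.sqrt (1 + Real.log ((n * finrank E k : ℕ) : ℝ)))) ≤
      Real.exp (-(C * Real.sqrt (1 + Real.log (finrank E L)))) := exp_mono hC hELn
  set X := Real.exp (-(C * Real.sqrt (1 + Real.log (finrank E L)))) with hX
  have hX0 : 0 < X := Real.exp_pos _
  have hdR : (0 : ℝ) < f.natDegree := by exact_mod_cast hd
  have hLR : (0 : ℝ) < finrank ℚ L := by exact_mod_cast hLpos
  have hER : (0 : ℝ) < finrank E L := by exact_mod_cast hELpos
  have hNR : (0 : ℝ) < N := by exact_mod_cast hNpos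
  have heR : (0 : ℝ) < e := by exact_mod_cast he1
  have h5 : X / (C * e * finrank E L) ≤ Λ / f.natDegree := by
    refine h1.trans ?_
    rw [div_le_iff₀ hLR]
    linarith
  have h6 : finrank ℚ E * X / (C * e * N) ≤ Λ := by
    rw [div_le_div_iff₀ (by positivity) hdR] at h5
    rw [div_le_iff₀ (by positivity)]
    have h7 : (finrank ℚ E : ℝ) * finrank E L ≤ f.natDegree * N := by exact_mod_cast hle
    have h8 : (finrank ℚ E * X) * finrank E L ≤ (Λ * (C * e * N)) * finrank E L := by
      calc (finrank ℚ E * X) * finrank E L = X * (finrank ℚ E * finrank E L) := by ring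
        _ ≤ X * (f.natDegree * N) := by gcongr
        _ = (X * f.natDegree) * N := by ring
        _ ≤ (Λ * (C * e * finrank E L)) * N := by gcongr
        _ = (Λ * (C * e * N)) * finrank E L := by ring
    exact le_of_mul_le_mul_right h8 hER
  unfold lb2
  refine le_trans ?_ h6
  exact div_le_div_of_nonneg_right (by gcongr) (by positivity)

end Pool.Agent.R976.MG
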