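import Mathlib
import Pool.Agent.Y399.MG.H

/-!
# A lower bound for integers of number fields with many primes of small norm
-/

set_option autoImplicit false

namespace Pool.Agent.R976.MG

open NumberField Module Finset

lemma pow_congr {A : Type*} [CommRing A] (I : Ideal A) (p : ℕ) (hp : (p : A) ∈ I) (y : A) (i : ℕ)
    (hi : 1 ≤ i) (hy : y - 1 ∈ I ^ i) : y ^ p - 1 ∈ I ^ (i + 1) := by
  have h1 : y - 1 ∈ I := Ideal.pow_le_self (by omega) hy
  have h2 : (∑ j ∈ range p, y ^ j) ∈ I := by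
    have h3 : (∑ j ∈ range p, y ^ j) = (∑ j ∈ range p, (y ^ j - 1)) + p := by
      rw [Finset.sum_sub_distrib]; simp
    rw [h3]
    refine I.add_mem (Ideal.sum_mem _ fun j _ => ?_) hp
    rw [← geom_sum_mul y j]
    exact I.mul_mem_left _ h1
  rw [← geom_sum_mul y p, pow_succ, mul_comm (∑ j ∈ range p, y ^ j)]
  exact Ideal.mul_mem_mul hy h2

lemma pow_pow_congr {A : Type*} [CommRing A] (I : Ideal A) (p : ℕ) (hp : (p : A) ∈ I) (y : A)
    (hy : y - 1 ∈ I) (a : ℕ) : y ^ p ^ a - 1 ∈ I ^ (a + 1) := by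
  induction a with
  | zero => simpa using hy
  | succ a ih =>
    rw [pow_succ p a, pow_mul]
    exact pow_congr I p hp _ (a + 1) (by omega) ih

variable {L : Type} [Field L] [NumberField L]

lemma mem_pow (Q : Ideal (𝓞 L)) (hQ : Q.IsMaximal) (p : ℕ) (hp : (p : 𝓞 L) ∈ Q) (N0 V : ℕ)
    (hp0 : p ≠ 0) (hN : Ideal.absNorm Q - 1 ∣ N0) (hV : 1 ≤ V) (x : 𝓞 L) :
    x ^ V * (x ^ (N0 * p ^ (V - 1)) - 1) ∈ Q ^ V := by
  by_cases hx : x ∈ Q
  · exact Ideal.mul_mem_right _ _ (Ideal.pow_mem_pow hx V)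
  · apply Ideal.mul_mem_left
    have hQ0 : Q ≠ ⊥ := by
      intro h
      rw [h, Ideal.mem_bot] at hp
      exact hp0 (by exact_mod_cast hp)
    have hfin : Finite (𝓞 L ⧸ Q) := by
      rw [← Ideal.absNorm_ne_zero_iff]
      exact fun h => hQ0 (Ideal.absNorm_eq_zero_iff.mp h)
    have h1 : x ^ N0 - 1 ∈ Q := by
      letI : Field (𝓞 L ⧸ Q) := Ideal.Quotient.field Q
      letI : Fintype (𝓞 L ⧸ Q) := Fintype.ofFinite _
      rw [← Ideal.Quotient.eq_zero_iff_mem, map_sub, map_pow, map_one]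
      have h2 : (Ideal.Quotient.mk Q x) ≠ 0 := by
        rwa [Ne, Ideal.Quotient.eq_zero_iff_mem]
      have h3 := FiniteField.pow_card_sub_one_eq_one _ h2
      have h4 : Fintype.card (𝓞 L ⧸ Q) = Ideal.absNorm Q := by
        rw [← Nat.card_eq_fintype_card]
        rfl
      rw [h4] at h3
      obtain ⟨c, hc⟩ := hN
      rw [hc, pow_mul, h3, one_pow, sub_self]
    have h5 := pow_pow_congr Q p hp (x ^ N0) h1 (V - 1)
    rw [← pow_mul] at h5
    rwa [Nat.sub_add_cancel hV] at h5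

/-- the norm of an integer in many powers of primes -/
lemma prod_le_norm (𝒬 : Finset (Ideal (𝓞 L))) (h𝒬 : ∀ Q ∈ 𝒬, Q.IsMaximal) (V : ℕ) (D : 𝓞 L)
    (hD0 : D ≠ 0) (hD : ∀ Q ∈ 𝒬, D ∈ Q ^ V) :
    ∏ Q ∈ 𝒬, Ideal.absNorm Q ^ V ≤ (Algebra.norm ℤ D).natAbs := by
  have h1 : (∏ Q ∈ 𝒬, Q ^ V) ∣ Ideal.span {D} := by
    apply Finset.prod_dvd_of_coprime
    · intro Q hQ Q' hQ' hne
      apply IsCoprime.pow
      rw [Ideal.isCoprime_iff_sup_eq]
      exact (h𝒬 Q hQ).coprime_of_ne (h𝒬 Q' hQ') hne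
    · intro Q hQ
      rw [Ideal.dvd_span_singleton]
      exact hD Q hQ
  have h2 := map_dvd Ideal.absNorm h1
  rw [map_prod, Ideal.absNorm_span_singleton] at h2
  simp only [map_pow] at h2
  apply Nat.le_of_dvd _ h2
  apply Nat.pos_of_ne_zero
  intro h
  exact hD0 (Algebra.norm_eq_zero_iff.mp (Int.natAbs_eq_zero.mp h))

/-- the norm as a product -/
lemma norm_prod_emb (D : 𝓞 L) :
    ((Algebra.norm ℤ D).natAbs : ℝ) = ∏ τ : L →+* ℂ, ‖τ (D : L)‖ := by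
  have h1 : (Algebra.norm ℤ D : ℚ) = Algebra.norm ℚ (D : L) := Algebra.coe_norm_int D
  have h2 := Algebra.norm_eq_prod_embeddings ℚ ℂ (D : L)
  have h3 : ‖algebraMap ℚ ℂ (Algebra.norm ℚ (D : L))‖ = ((Algebra.norm ℤ D).natAbs : ℝ) := by
    rw [← h1]
    simp
  rw [← h3, h2, norm_prod]
  exact (Fintype.prod_equiv (RingHom.equivRatAlgHom L ℂ) _ _ fun σ => rfl).symm

/-- the upper bound of the norm -/
lemma norm_le {k : Type} [Field k] [NumberField k] [Algebra k L] (S : Finset (k →+* ℂ)) (x : 𝓞 L)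
    (R : ℝ) (hR : 1 ≤ R)
    (hout : ∀ τ : L →+* ℂ, τ.comp (algebraMap k L) ∉ S → ‖τ (x : L)‖ ≤ 1)
    (hin : ∀ τ : L →+* ℂ, ‖τ (x : L)‖ ≤ R) (V N : ℕ) :
    ((Algebra.norm ℤ (x ^ V * (x ^ N - 1))).natAbs : ℝ) ≤
      2 ^ finrank ℚ L * R ^ ((N + V) * (S.card * finrank k L)) := by
  classical
  rw [norm_prod_emb]
  have h1 : ∀ τ : L →+* ℂ, ‖τ ((x ^ V * (x ^ N - 1) : 𝓞 L) : L)‖ ≤
      2 * (if τ.comp (algebraMap k L) ∈ S then R ^ (N + V) else 1) := by
    intro τ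
    have e1 : τ ((x ^ V * (x ^ N - 1) : 𝓞 L) : L) = τ (x : L) ^ V * (τ (x : L) ^ N - 1) := by
      push_cast
      simp
    rw [e1, norm_mul, norm_pow]
    have e2 : ‖τ (x : L) ^ N - 1‖ ≤ ‖τ (x : L)‖ ^ N + 1 := by
      calc ‖τ (x : L) ^ N - 1‖ ≤ ‖τ (x : L) ^ N‖ + ‖(1 : ℂ)‖ := norm_sub_le _ _
        _ = _ := by rw [norm_pow, norm_one]
    set r := ‖τ (x : L)‖ with hr
    have hr0 : 0 ≤ r := norm_nonneg _
    split_ifs with h
    · have h3 : r ≤ R := hin τ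
      have h4 : (1 : ℝ) ≤ R ^ N := one_le_pow₀ hR
      calc r ^ V * ‖τ (x : L) ^ N - 1‖ ≤ R ^ V * (R ^ N + R ^ N) := by
            apply mul_le_mul (pow_le_pow_left₀ hr0 h3 V) _ (norm_nonneg _) (by positivity)
            have := pow_le_pow_left₀ hr0 h3 N
            linarith
        _ = 2 * R ^ (N + V) := by rw [pow_add]; ring
    · have h3 : r ≤ 1 := hout τ h
      have h4 : r ^ N ≤ 1 := pow_le_one₀ hr0 h3
      have h5 : r ^ V ≤ 1 := pow_le_one₀ hr0 h3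
      calc r ^ V * ‖τ (x : L) ^ N - 1‖ ≤ 1 * (1 + 1) := by
            apply mul_le_mul h5 _ (norm_nonneg _) (by norm_num)
            linarith
        _ = 2 * 1 := by norm_num
  refine (Finset.prod_le_prod (fun τ _ => norm_nonneg _) fun τ _ => h1 τ).trans (le_of_eq ?_)
  rw [Finset.prod_mul_distrib, Finset.prod_const, Finset.prod_ite, Finset.prod_const,
    Finset.prod_const_one, mul_one, Finset.card_univ, Pool.Agent.H225R3.Marg.card_over S,
    ← pow_mul]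
  congr 2
  exact NumberField.Embeddings.card L ℂ

end Pool.Agent.R976.MG
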