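import Mathlib
import Pool.Agent.R976.MG.Split

/-!
# The lower bound over number fields with many primes of small norm
-/

set_option autoImplicit false

namespace Pool.Agent.R976.MG

open NumberField Module Finset

variable {L : Type} [Field L] [NumberField L]

theorem split_bound {k : Type} [Field k] [NumberField k] [Algebra k L] (S : Finset (k →+* ℂ))
    (x : 𝓞 L) (hx0 : x ≠ 0) (hroot : ∀ m : ℕ, 0 < m → x ^ m ≠ 1) (R : ℝ) (hR : 1 ≤ R)
    (hout : ∀ τ : L →+* ℂ, τ.comp (algebraMap k L) ∉ S → ‖τ (x : L)‖ ≤ 1)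
    (hin : ∀ τ : L →+* ℂ, ‖τ (x : L)‖ ≤ R) (n s p F : ℕ) (hs : S.card ≤ s)
    (hn : finrank k L ≤ n) (hp : p.Prime) (hF : 1 ≤ F) (θ : ℝ) (hθ : 0 < θ)
    (T : Finset (Ideal (𝓞 k)))
    (hT : ∀ P ∈ T, P.IsMaximal ∧ (p : 𝓞 k) ∈ P ∧ ∃ f, f ∣ F ∧ Ideal.absNorm P = p ^ f)
    (hbig : θ * finrank ℚ k * Real.log p ≤ ∑ P ∈ T, Real.log (Ideal.absNorm P)) :
    finrank ℚ k * Real.log 2 ≤
      (s * n : ℕ) * ((p : ℝ) ^ (F * n) * (4 : ℝ) ^ ((n : ℝ) ^ 2 / θ)) * Real.log R := by
  classical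
  have hex : ∀ P ∈ T, ∃ Q : Ideal (𝓞 L), Q.IsMaximal ∧ Q.LiesOver P := by
    intro P hP
    haveI := (hT P hP).1
    exact Ideal.exists_maximal_ideal_liesOver_of_isIntegral P
  choose! f hf1 hf2 using hex
  have hpmem : ∀ P ∈ T, (p : 𝓞 L) ∈ f P := by
    intro P hP
    have h1 := (hf2 P hP).over
    have h2 := (hT P hP).2.1
    rw [h1] at h2
    have h3 : algebraMap (𝓞 k) (𝓞 L) (p : 𝓞 k) ∈ f P := h2
    rwa [map_natCast] at h3
  have hinj : Set.InjOn f T := by
    intro P hP P' hP' h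
    rw [(hf2 P hP).over, (hf2 P' hP').over, h]
  set j : Ideal (𝓞 k) → ℕ := fun P => (f P).inertiaDeg (𝓞 k) with hj
  have hj1 : ∀ P ∈ T, 1 ≤ j P := by
    intro P hP
    haveI := (hf1 P hP).isPrime
    exact (f P).inertiaDeg_pos (𝓞 k)
  have hj2 : ∀ P ∈ T, j P ≤ n := by
    intro P hP
    haveI := (hf1 P hP).isPrime
    have h1 := Pool.Agent.Y399.MG.sum_inertia_le (L := L) P (hT P hP).1.isPrime {f P}
      (by
        intro Q hQ
        rw [Finset.mem_singleton] at hQ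
        subst hQ
        exact ⟨(hf1 P hP).isPrime, (hf2 P hP).over.symm⟩)
    rw [Finset.sum_singleton] at h1
    exact h1.trans hn
  have hnorm : ∀ P ∈ T, Ideal.absNorm (f P) = Ideal.absNorm P ^ j P := by
    intro P hP
    haveI := (hf1 P hP).isPrime
    haveI := hf2 P hP
    exact (Ideal.absNorm_pow_inertiaDeg P (f P)).symm
  have hkL : 0 < finrank k L := finrank_pos
  have hn1 : 1 ≤ n := hkL.trans_le hn
  have hnR : (1 : ℝ) ≤ n := by exact_mod_cast hn1
  have hp2 : 2 ≤ p := hp.two_le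
  have hpR : (2 : ℝ) ≤ p := by exact_mod_cast hp2
  have hlp : 0 < Real.log p := Real.log_pos (by linarith)
  have hl2 : 0 < Real.log 2 := Real.log_pos (by norm_num)
  have hm : 0 < finrank ℚ k := finrank_pos
  have hmR : (0 : ℝ) < finrank ℚ k := by exact_mod_cast hm
  -- the pigeonhole principle
  obtain ⟨i, hi, hi2⟩ : ∃ i ∈ Finset.Icc 1 n, θ * finrank ℚ k * Real.log p / n ≤
      ∑ P ∈ T.filter (fun P => j P = i), Real.log (Ideal.absNorm P) := by
    by_contra hcon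
    push Not at hcon
    have h1 : ∑ i ∈ Finset.Icc 1 n, ∑ P ∈ T.filter (fun P => j P = i),
        Real.log (Ideal.absNorm P) < ∑ _i ∈ Finset.Icc 1 n, θ * finrank ℚ k * Real.log p / n :=
      Finset.sum_lt_sum_of_nonempty ⟨1, Finset.mem_Icc.2 ⟨le_refl _, hn1⟩⟩ hcon
    rw [Finset.sum_fiberwise_of_maps_to (g := j)
      (fun P hP => Finset.mem_Icc.2 ⟨hj1 P hP, hj2 P hP⟩), Finset.sum_const, Nat.card_Icc,
      nsmul_eq_mul, Nat.add_sub_cancel] at h1
    have h2 : (n : ℝ) * (θ * finrank ℚ k * Real.log p / n) = θ * finrank ℚ k * Real.log p := by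
      field_simp
    rw [h2] at h1
    linarith
  rw [Finset.mem_Icc] at hi
  set V := ⌈2 * (n : ℝ) ^ 2 * Real.log 2 / (θ * Real.log p)⌉₊ with hV
  have hVpos : 0 < 2 * (n : ℝ) ^ 2 * Real.log 2 / (θ * Real.log p) := by positivity
  have hV1 : 1 ≤ V := Nat.ceil_pos.2 hVpos
  have hV2 : 2 * (n : ℝ) ^ 2 * Real.log 2 / (θ * Real.log p) ≤ V := Nat.le_ceil _
  have hV3 : (V : ℝ) < 2 * (n : ℝ) ^ 2 * Real.log 2 / (θ * Real.log p) + 1 :=
    Nat.ceil_lt_add_one hVpos.le
  set N0 := p ^ (F * i) - 1 with hN0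
  have hFi : 1 ≤ F * i := Nat.mul_pos hF hi.1
  have hpow2 : 2 ≤ p ^ (F * i) := by
    calc 2 ≤ p := hp2
      _ = p ^ 1 := (pow_one p).symm
      _ ≤ p ^ (F * i) := Nat.pow_le_pow_right (by omega) hFi
  have hN0pos : 0 < N0 := by omega
  set N := N0 * p ^ (V - 1) with hN
  have hNpos : 0 < N := Nat.mul_pos hN0pos (Nat.pow_pos (by omega))
  set D : 𝓞 L := x ^ V * (x ^ N - 1) with hD
  have hD0 : D ≠ 0 := by
    apply mul_ne_zero (pow_ne_zero _ hx0)
    intro h
    exact hroot N hNpos (sub_eq_zero.mp h)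
  have hmemD : ∀ Q ∈ (T.filter (fun P => j P = i)).image f, D ∈ Q ^ V := by
    intro Q hQ
    rw [Finset.mem_image] at hQ
    obtain ⟨P, hP, rfl⟩ := hQ
    rw [Finset.mem_filter] at hP
    obtain ⟨f', hf', hnf⟩ := (hT P hP.1).2.2
    apply mem_pow (f P) (hf1 P hP.1) p (hpmem P hP.1) N0 V (by omega) _ hV1 x
    rw [hnorm P hP.1, hP.2, hnf]
    obtain ⟨c, hc⟩ := hf'
    have h1 : N0 = ((p ^ f') ^ i) ^ c - 1 ^ c := by
      rw [hN0, hc, one_pow, ← pow_mul, ← pow_mul]
      congr 2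
      ring
    rw [h1]
    exact Nat.sub_dvd_pow_sub_pow _ _ _
  have hlow := prod_le_norm ((T.filter (fun P => j P = i)).image f) (by
    intro Q hQ
    rw [Finset.mem_image] at hQ
    obtain ⟨P, hP, rfl⟩ := hQ
    rw [Finset.mem_filter] at hP
    exact hf1 P hP.1) V D hD0 hmemD
  rw [Finset.prod_image (fun P hP P' hP' h => hinj (Finset.mem_filter.1 hP).1
    (Finset.mem_filter.1 hP').1 h)] at hlow
  have hup := norm_le S x R hR hout hin V N
  rw [← hD] at hup
  -- logarithms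
  have hPpos : ∀ P ∈ T, 1 ≤ Ideal.absNorm P := by
    intro P hP
    obtain ⟨f', -, hnf⟩ := (hT P hP).2.2
    rw [hnf]
    exact Nat.one_le_pow _ _ (by omega)
  have hlog1 : V * ∑ P ∈ T.filter (fun P => j P = i), Real.log (Ideal.absNorm P) ≤
      Real.log ((Algebra.norm ℤ D).natAbs : ℝ) := by
    have h1 : (∏ P ∈ T.filter (fun P => j P = i), (Ideal.absNorm P : ℝ) ^ V) ≤
        ((Algebra.norm ℤ D).natAbs : ℝ) := by
      refine le_trans ?_ (by exact_mod_cast hlow :
        (∏ P ∈ T.filter (fun P => j P = i), (Ideal.absNorm (f P) : ℝ) ^ V) ≤ _)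
      refine Finset.prod_le_prod (fun P _ => by positivity) fun P hP => ?_
      rw [Finset.mem_filter] at hP
      apply pow_le_pow_left₀ (by positivity)
      rw [hnorm P hP.1]
      push_cast
      exact le_self_pow₀ (by exact_mod_cast hPpos P hP.1) (by have := hj1 P hP.1; omega)
    have h2 : 0 < ∏ P ∈ T.filter (fun P => j P = i), (Ideal.absNorm P : ℝ) ^ V := by
      apply Finset.prod_pos
      intro P hP
      rw [Finset.mem_filter] at hP
      have := hPpos P hP.1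
      positivity
    have h3 := Real.log_le_log h2 h1
    rw [Real.log_prod (fun P hP => by
      rw [Finset.mem_filter] at hP
      have := hPpos P hP.1
      positivity)] at h3
    refine le_trans (le_of_eq ?_) h3
    rw [Finset.mul_sum]
    exact Finset.sum_congr rfl fun P _ => (Real.log_pow _ _).symm
  have hDpos : (0 : ℝ) < ((Algebra.norm ℤ D).natAbs : ℝ) := by
    have : 0 < (Algebra.norm ℤ D).natAbs := by
      apply Nat.pos_of_ne_zero
      intro h
      exact hD0 (Algebra.norm_eq_zero_iff.mp (Int.natAbs_eq_zero.mp h))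
    exact_mod_cast this
  have hR0 : 0 < R := by linarith
  have hlog2 : Real.log ((Algebra.norm ℤ D).natAbs : ℝ) ≤
      finrank ℚ L * Real.log 2 + ((N + V) * (S.card * finrank k L) : ℕ) * Real.log R := by
    refine (Real.log_le_log hDpos hup).trans (le_of_eq ?_)
    rw [Real.log_mul (by positivity) (by positivity), Real.log_pow, Real.log_pow]
  have hlR : 0 ≤ Real.log R := Real.log_nonneg hR
  have hdeg : finrank ℚ k * finrank k L = finrank ℚ L := finrank_mul_finrank ℚ k L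
  have hLn : (finrank ℚ L : ℝ) ≤ finrank ℚ k * n := by
    rw [← hdeg]
    push_cast
    apply mul_le_mul_of_nonneg_left _ hmR.le
    exact_mod_cast hn
  have hmL : (finrank ℚ k : ℝ) ≤ finrank ℚ L := by
    rw [← hdeg]
    push_cast
    have : (1 : ℝ) ≤ finrank k L := by exact_mod_cast hkL
    nlinarith
  have hA : 2 * (finrank ℚ L : ℝ) * Real.log 2 ≤
      V * ∑ P ∈ T.filter (fun P => j P = i), Real.log (Ideal.absNorm P) := by
    calc 2 * (finrank ℚ L : ℝ) * Real.log 2 ≤ 2 * (finrank ℚ k * n) * Real.log 2 := by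
          gcongr
      _ = (2 * (n : ℝ) ^ 2 * Real.log 2 / (θ * Real.log p)) *
          (θ * finrank ℚ k * Real.log p / n) := by
          field_simp
      _ ≤ V * (θ * finrank ℚ k * Real.log p / n) := by
          apply mul_le_mul_of_nonneg_right hV2
          positivity
      _ ≤ _ := mul_le_mul_of_nonneg_left hi2 (by positivity)
  have hB : (finrank ℚ k : ℝ) * Real.log 2 ≤
      ((N + V) * (S.card * finrank k L) : ℕ) * Real.log R := by
    have h1 : (finrank ℚ k : ℝ) * Real.log 2 ≤ finrank ℚ L * Real.log 2 :=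
      mul_le_mul_of_nonneg_right hmL hl2.le
    linarith
  refine hB.trans ?_
  apply mul_le_mul_of_nonneg_right _ hlR
  have hC : ((N + V : ℕ) : ℝ) ≤ (p : ℝ) ^ (F * n) * (4 : ℝ) ^ ((n : ℝ) ^ 2 / θ) := by
    have h1 : V ≤ p ^ (V - 1) := by
      have h2 : V - 1 < 2 ^ (V - 1) := Nat.lt_two_pow_self
      have h3 : 2 ^ (V - 1) ≤ p ^ (V - 1) := Nat.pow_le_pow_left hp2 _
      omega
    have h2 : N + V ≤ p ^ (F * i) * p ^ (V - 1) := by
      calc N + V ≤ N0 * p ^ (V - 1) + p ^ (V - 1) := Nat.add_le_add_left h1 _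
        _ = (N0 + 1) * p ^ (V - 1) := by ring
        _ = p ^ (F * i) * p ^ (V - 1) := by
            rw [hN0, Nat.sub_add_cancel (by omega)]
    have h3 : p ^ (F * i) ≤ p ^ (F * n) :=
      Nat.pow_le_pow_right (by omega) (Nat.mul_le_mul_left _ hi.2)
    have h4 : ((p : ℝ) ^ (V - 1)) ≤ (4 : ℝ) ^ ((n : ℝ) ^ 2 / θ) := by
      have h5 : ((V - 1 : ℕ) : ℝ) ≤ 2 * (n : ℝ) ^ 2 * Real.log 2 / (θ * Real.log p) := by
        rw [Nat.cast_sub hV1]
        push_cast
        linarith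
      have h6 : (p : ℝ) ^ (V - 1) = Real.exp (((V - 1 : ℕ) : ℝ) * Real.log p) := by
        rw [← Real.log_pow, Real.exp_log (by positivity)]
      have h7 : (4 : ℝ) ^ ((n : ℝ) ^ 2 / θ) = Real.exp (Real.log 4 * ((n : ℝ) ^ 2 / θ)) :=
        Real.rpow_def_of_pos (by norm_num) _
      have h8 : Real.log 4 = 2 * Real.log 2 := by
        rw [show (4 : ℝ) = 2 ^ 2 by norm_num, Real.log_pow]
        norm_num
      rw [h6, h7, h8]
      apply Real.exp_le_exp.2
      calc ((V - 1 : ℕ) : ℝ) * Real.log p ≤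
          (2 * (n : ℝ) ^ 2 * Real.log 2 / (θ * Real.log p)) * Real.log p :=
            mul_le_mul_of_nonneg_right h5 hlp.le
        _ = 2 * Real.log 2 * ((n : ℝ) ^ 2 / θ) := by
            field_simp
    calc ((N + V : ℕ) : ℝ) ≤ ((p ^ (F * i) * p ^ (V - 1) : ℕ) : ℝ) := by exact_mod_cast h2
      _ = (p : ℝ) ^ (F * i) * (p : ℝ) ^ (V - 1) := by push_cast; ring
      _ ≤ (p : ℝ) ^ (F * n) * (4 : ℝ) ^ ((n : ℝ) ^ 2 / θ) := by
          apply mul_le_mul _ h4 (by positivity) (by positivity)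
          exact_mod_cast h3
  have hE : ((S.card * finrank k L : ℕ) : ℝ) ≤ ((s * n : ℕ) : ℝ) := by
    exact_mod_cast Nat.mul_le_mul hs hn
  calc (((N + V) * (S.card * finrank k L) : ℕ) : ℝ) =
        ((N + V : ℕ) : ℝ) * ((S.card * finrank k L : ℕ) : ℝ) := by push_cast; ring
    _ ≤ ((p : ℝ) ^ (F * n) * (4 : ℝ) ^ ((n : ℝ) ^ 2 / θ)) * ((s * n : ℕ) : ℝ) :=
        mul_le_mul hC hE (by positivity) (by positivity)
    _ = _ := by ring

end Pool.Agent.R976.MG
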